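import Pool.Agent.V1154.CT.Low

/-! Every caterpillar with seven leaves displays a chain of splits. -/

namespace MP6c0529

/-- positions of the leaves `σ 0, …, σ 6` on the spine -/
def posStd : Fin 7 → Fin 5 := ![0, 0, 1, 2, 3, 4, 4]

theorem posStd_le (k : ℕ) (h2 : 2 ≤ k) (h5 : k ≤ 5) (j : Fin 7) :
    (posStd j).val ≤ k - 2 ↔ j.val < k := by
  interval_cases k <;> revert j <;> decide

theorem nbr_ncard (t : Fin 5) :
    ({s : Fin 5 | (SimpleGraph.pathGraph 5).Adj t s}).ncard + Fintype.card {j // posStd j = t} =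
      3 := by
  have h : ∀ t : Fin 5, {s : Fin 5 | (SimpleGraph.pathGraph 5).Adj t s} =
      ((Finset.univ.filter fun s : Fin 5 => s.val + 1 = t.val ∨ t.val + 1 = s.val) :
        Set (Fin 5)) := by
    intro t
    ext s
    simp only [Set.mem_ofPred_eq, SimpleGraph.pathGraph_adj, Finset.coe_filter, Finset.mem_univ,
      true_and]
    exact or_comm
  rw [h t, Set.ncard_coe_finset]
  revert t
  decide

theorem spine_five (T : SBTree 7) (m : ℕ)
    (φ : (T.G.induce {v | (T.G.neighborSet v).ncard ≠ 1}) ≃g SimpleGraph.pathGraph m) :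
    m = 5 := by
  classical
  haveI := T.fin
  letI : Fintype T.V := Fintype.ofFinite T.V
  have hdeg : ∀ v, T.G.degree v = (T.G.neighborSet v).ncard := by
    intro v
    rw [← SimpleGraph.card_neighborSet_eq_degree, Set.ncard_eq_toFinset_card',
      Set.toFinset_card]
  have hsum := T.G.sum_degrees_eq_twice_card_edges
  have hE := T.tree.card_edgeFinset
  have hL : (Finset.univ.filter fun v : T.V => (T.G.neighborSet v).ncard = 1).card = 7 := by
    have : (Finset.univ.filter fun v : T.V => (T.G.neighborSet v).ncard = 1) =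
        Finset.univ.image T.leaf := by
      ext v
      simp only [Finset.mem_filter, Finset.mem_univ, true_and, Finset.mem_image]
      exact (T.leaf_range v).symm
    rw [this, Finset.card_image_of_injective _ T.leaf_inj]
    simp
  have hI : (Finset.univ.filter fun v : T.V => ¬ (T.G.neighborSet v).ncard = 1).card = m := by
    have h1 : Fintype.card {v : T.V // v ∈ {v | (T.G.neighborSet v).ncard ≠ 1}} = m := by
      exact (Fintype.card_congr φ.toEquiv).trans (Fintype.card_fin m)
    rw [← h1, Fintype.card_subtype]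
    congr 1
  have hV : Fintype.card T.V = 7 + m := by
    rw [← Finset.card_univ, ← Finset.card_filter_add_card_filter_not
      (fun v : T.V => (T.G.neighborSet v).ncard = 1), hL, hI]
  have hsum2 : ∑ v : T.V, T.G.degree v = 7 + 3 * m := by
    rw [← Finset.sum_filter_add_sum_filter_not Finset.univ
      (fun v : T.V => (T.G.neighborSet v).ncard = 1)]
    rw [Finset.sum_congr rfl (g := fun _ => 1), Finset.sum_congr (s₁ := Finset.univ.filter
      (fun v : T.V => ¬ (T.G.neighborSet v).ncard = 1)) rfl (g := fun _ => 3)]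
    · rw [Finset.sum_const, Finset.sum_const, hL, hI]
      simp [mul_comm]
    · intro v hv
      rw [Finset.mem_filter] at hv
      rw [hdeg]
      exact (T.deg v).resolve_left hv.2
    · intro v hv
      rw [Finset.mem_filter] at hv
      rw [hdeg, hv.2]
  omega

theorem card_big (T : SBTree 7) (a b : T.V) : ∃ v, v ≠ a ∧ v ≠ b := by
  by_contra hc
  push Not at hc
  have h : ∀ i : Fin 7, T.leaf i = a ∨ T.leaf i = b := by
    intro i
    by_cases h : T.leaf i = a
    · exact Or.inl h
    · exact Or.inr (hc _ h)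
  have e : ∀ i j : Fin 7, T.leaf i = T.leaf j → i = j := fun i j h => T.leaf_inj h
  rcases h 0 with h0 | h0 <;> rcases h 1 with h1 | h1 <;> rcases h 2 with h2 | h2
  all_goals first
    | exact absurd (e 0 1 (h0.trans h1.symm)) (by decide)
    | exact absurd (e 0 2 (h0.trans h2.symm)) (by decide)
    | exact absurd (e 1 2 (h1.trans h2.symm)) (by decide)

theorem hasChain (T : SBTree 7) (hT : T.IsCaterpillar) : ∃ σ, T.HasChain σ := by
  classical
  obtain ⟨m, ⟨φ⟩⟩ := hT
  obtain rfl := spine_five T m φ
  haveI := T.fin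
  letI : Fintype T.V := Fintype.ofFinite T.V
  -- spine vertices
  let P : Fin 5 → T.V := fun t => (φ.symm t).val
  have hPI : ∀ t, (T.G.neighborSet (P t)).ncard ≠ 1 := fun t => (φ.symm t).property
  have hP3 : ∀ t, (T.G.neighborSet (P t)).ncard = 3 := fun t => (T.deg _).resolve_left (hPI t)
  have hPinj : Function.Injective P := by
    intro s t h
    exact φ.symm.injective (Subtype.ext h)
  have hPadj : ∀ s t, T.G.Adj (P s) (P t) ↔ (SimpleGraph.pathGraph 5).Adj s t := by
    intro s t
    rw [← φ.symm.map_adj_iff]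
    rfl
  have hcov : ∀ v, (∃ i, T.leaf i = v) ∨ ∃ t, P t = v := by
    intro v
    by_cases h : (T.G.neighborSet v).ncard = 1
    · exact Or.inl ((T.leaf_range v).mpr h)
    · right
      refine ⟨φ ⟨v, h⟩, ?_⟩
      show ((φ.symm (φ ⟨v, h⟩)).val : T.V) = v
      rw [φ.symm_apply_apply]
  have hPL : ∀ t i, P t ≠ T.leaf i := by
    intro t i h
    exact hPI t (by rw [h]; exact (T.leaf_range _).mp ⟨i, rfl⟩)
  -- the neighbour of a leaf
  have hnb : ∀ i, ∃ w, T.G.neighborSet (T.leaf i) = {w} := by
    intro i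
    exact Set.ncard_eq_one.mp ((T.leaf_range _).mp ⟨i, rfl⟩)
  have hpos : ∀ i, ∃ t, T.G.neighborSet (T.leaf i) = {P t} := by
    intro i
    obtain ⟨w, hw⟩ := hnb i
    rcases hcov w with ⟨j, hj⟩ | ⟨t, ht⟩
    · exfalso
      have hij : T.G.Adj (T.leaf i) w := by
        have : w ∈ T.G.neighborSet (T.leaf i) := by rw [hw]; rfl
        exact this
      obtain ⟨w', hw'⟩ := hnb j
      have hw'' : w' = T.leaf i := by
        have : T.leaf i ∈ T.G.neighborSet (T.leaf j) := by
          rw [hj]; exact hij.symm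
        rw [hw'] at this
        exact (Set.mem_singleton_iff.mp this).symm
      subst hw''
      obtain ⟨v, hv1, hv2⟩ := card_big T (T.leaf i) w
      have hcl : ∀ x y, T.G.Walk x y → (x = T.leaf i ∨ x = w) → (y = T.leaf i ∨ y = w) := by
        intro x y p
        induction p with
        | nil => exact id
        | @cons a b c h p ih =>
          intro ha
          apply ih
          rcases ha with rfl | rfl
          · have : b ∈ T.G.neighborSet (T.leaf i) := h
            rw [hw] at this
            exact Or.inr this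
          · have : b ∈ T.G.neighborSet (T.leaf j) := by rw [hj]; exact h
            rw [hw'] at this
            exact Or.inl this
      obtain ⟨p⟩ := T.tree.connected.preconnected (T.leaf i) v
      rcases hcl _ _ p (Or.inl rfl) with h | h
      · exact hv1 h
      · exact hv2 h
    · exact ⟨t, by rw [hw, ht]⟩
  choose pos hpos using hpos
  have hadjL : ∀ i t, T.G.Adj (T.leaf i) (P t) ↔ pos i = t := by
    intro i t
    have : T.G.Adj (T.leaf i) (P t) ↔ P t ∈ T.G.neighborSet (T.leaf i) := Iff.rfl
    rw [this, hpos i, Set.mem_singleton_iff, hPinj.eq_iff]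
    exact eq_comm
  -- numbers of leaves at the spine vertices
  have hcard : ∀ t, Fintype.card {i // pos i = t} = Fintype.card {j // posStd j = t} := by
    intro t
    have h1 := nbr_ncard t
    have h2 : T.G.neighborSet (P t) =
        T.leaf '' {i | pos i = t} ∪ P '' {s | (SimpleGraph.pathGraph 5).Adj t s} := by
      ext v
      simp only [SimpleGraph.mem_neighborSet, Set.mem_union, Set.mem_image, Set.mem_ofPred_eq]
      constructor
      · intro h
        rcases hcov v with ⟨i, rfl⟩ | ⟨s, rfl⟩
        · exact Or.inl ⟨i, (hadjL i t).mp h.symm, rfl⟩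
        · exact Or.inr ⟨s, (hPadj t s).mp h, rfl⟩
      · rintro (⟨i, hi, rfl⟩ | ⟨s, hs, rfl⟩)
        · exact ((hadjL i t).mpr hi).symm
        · exact (hPadj t s).mpr hs
    have h3 := hP3 t
    rw [h2, Set.ncard_union_eq ?_ (Set.toFinite _) (Set.toFinite _),
      Set.ncard_image_of_injective _ T.leaf_inj, Set.ncard_image_of_injective _ hPinj] at h3
    · have h4 : ({i | pos i = t} : Set (Fin 7)).ncard = Fintype.card {i // pos i = t} := by
        rw [Set.ncard_eq_toFinset_card', Fintype.card_subtype]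
        congr 1
        ext i; simp
      omega
    · rw [Set.disjoint_left]
      rintro _ ⟨i, -, rfl⟩ ⟨s, -, hs⟩
      exact hPL s i hs
  let e : ∀ t, {j // posStd j = t} ≃ {i // pos i = t} := fun t =>
    Fintype.equivOfCardEq (hcard t).symm
  let σ : Equiv.Perm (Fin 7) := Equiv.ofFiberEquiv e
  have hσ : ∀ j, pos (σ j) = posStd j := fun j => Equiv.ofFiberEquiv_map e j
  refine ⟨σ, ?_⟩
  intro k hk2 hk5
  have hposk : ∀ i, (pos i).val ≤ k - 2 ↔ (σ.symm i).val < k := by
    intro i
    have := hσ (σ.symm i)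
    rw [Equiv.apply_symm_apply] at this
    rw [this]
    exact posStd_le k hk2 hk5 _
  have ht : k - 2 < 5 := by omega
  have ht' : k - 2 + 1 < 5 := by omega
  let t : Fin 5 := ⟨k - 2, ht⟩
  let t' : Fin 5 := ⟨k - 2 + 1, ht'⟩
  have hadj : T.G.Adj (P t) (P t') := by
    rw [hPadj, SimpleGraph.pathGraph_adj]
    left; rfl
  refine ⟨s(P t, P t'), hadj, fun i j => ?_⟩
  have key : ∀ a b, T.G.Adj a b → s(a, b) ≠ s(P t, P t') →
      ((∃ s : Fin 5, s.val ≤ k - 2 ∧ P s = a) ∨ (∃ i, (pos i).val ≤ k - 2 ∧ T.leaf i = a)) →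
      ((∃ s : Fin 5, s.val ≤ k - 2 ∧ P s = b) ∨ (∃ i, (pos i).val ≤ k - 2 ∧ T.leaf i = b)) := by
    rintro a b hab hne (⟨s, hs, rfl⟩ | ⟨i, hi, rfl⟩)
    · rcases hcov b with ⟨i, rfl⟩ | ⟨s', rfl⟩
      · right
        refine ⟨i, ?_, rfl⟩
        rw [(hadjL i s).mp hab.symm]
        exact hs
      · left
        refine ⟨s', ?_, rfl⟩
        by_contra hc
        push Not at hc
        have h := (hPadj s s').mp hab
        rw [SimpleGraph.pathGraph_adj] at h
        apply hne
        have e1 : s = t := by apply Fin.ext; show s.val = k - 2; omega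
        have e2 : s' = t' := by apply Fin.ext; show s'.val = k - 2 + 1; omega
        rw [e1, e2]
    · have : b ∈ T.G.neighborSet (T.leaf i) := hab
      rw [hpos i] at this
      left
      exact ⟨pos i, hi, (Set.mem_singleton_iff.mp this).symm⟩
  rw [reach_iff T.tree.connected
    (fun v => (∃ s : Fin 5, s.val ≤ k - 2 ∧ P s = v) ∨
      (∃ i, (pos i).val ≤ k - 2 ∧ T.leaf i = v)) ?_ ?_ ?_]
  · have hl : ∀ i, ((∃ s : Fin 5, s.val ≤ k - 2 ∧ P s = T.leaf i) ∨
        (∃ i', (pos i').val ≤ k - 2 ∧ T.leaf i' = T.leaf i)) ↔ (σ.symm i).val < k := by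
      intro i
      rw [← hposk i]
      constructor
      · rintro (⟨s, -, hs⟩ | ⟨i', hi', he⟩)
        · exact absurd hs (hPL s i)
        · rw [T.leaf_inj he] at hi'; exact hi'
      · intro h
        exact Or.inr ⟨i, h, rfl⟩
    rw [hl i, hl j]
  · intro a b hab hne
    refine ⟨key a b hab hne, key b a hab.symm ?_⟩
    rw [Sym2.eq_swap]; exact hne
  · exact Or.inl ⟨t, le_refl _, rfl⟩
  · rintro (⟨s, hs, he⟩ | ⟨i, -, he⟩)
    · have := hPinj he
      rw [this] at hs
      have : k - 2 + 1 ≤ k - 2 := hs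
      omega
    · exact hPL _ _ he.symm

end MP6c0529
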