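import Mathlib

/-! Semilabeled binary trees, convex characters, caterpillars; general lemmas. -/

namespace MP6c0529

/-- A semilabeled binary tree of size `n`: a finite tree in which every vertex has degree
`1` or `3`, together with a bijective labelling of the vertices of degree `1` by `Fin n`. -/
structure SBTree (n : ℕ) where
  V : Type
  fin : Finite V
  G : SimpleGraph V
  tree : G.IsTree
  deg : ∀ v, (G.neighborSet v).ncard = 1 ∨ (G.neighborSet v).ncard = 3
  leaf : Fin n → V
  leaf_inj : Function.Injective leaf
  leaf_range : ∀ v, (∃ i, leaf i = v) ↔ (G.neighborSet v).ncard = 1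

/-- The partition of the labels (as an equivalence relation) obtained by deleting the set of
edges `D`: two labels are equivalent when their leaves are joined by a walk in `G - D`. -/
def SBTree.rel {n : ℕ} (T : SBTree n) (D : Set (Sym2 T.V)) : Setoid (Fin n) :=
  (T.G.deleteEdges D).reachableSetoid.comap T.leaf

/-- The set of convex characters on `T`. -/
def SBTree.convex {n : ℕ} (T : SBTree n) : Set (Setoid (Fin n)) :=
  {r | ∃ D : Set (Sym2 T.V), D ⊆ T.G.edgeSet ∧ r = T.rel D}

/-- A caterpillar: deleting all leaves (vertices of degree `1`) leaves a path. -/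
def SBTree.IsCaterpillar {n : ℕ} (T : SBTree n) : Prop :=
  ∃ m : ℕ, Nonempty
    ((T.G.induce {v | (T.G.neighborSet v).ncard ≠ 1}) ≃g SimpleGraph.pathGraph m)

/-- `s n`: the least number of common convex characters of two trees of size `n`. -/
noncomputable def s (n : ℕ) : ℕ :=
  sInf {k | ∃ T F : SBTree n, k = (T.convex ∩ F.convex).ncard}

/-- `c n`: the least number of common convex characters of two caterpillars of size `n`. -/
noncomputable def c (n : ℕ) : ℕ :=
  sInf {k | ∃ T F : SBTree n, T.IsCaterpillar ∧ F.IsCaterpillar ∧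
    k = (T.convex ∩ F.convex).ncard}

/-! ### General lemmas on trees -/

theorem reach_iff {V : Type} {G : SimpleGraph V} (hG : G.Connected) {u v : V}
    (f : V → Prop) (hf : ∀ a b, G.Adj a b → s(a, b) ≠ s(u, v) → (f a ↔ f b))
    (hu : f u) (hv : ¬ f v) (a b : V) :
    (G.deleteEdges {s(u, v)}).Reachable a b ↔ (f a ↔ f b) := by
  have hconst : ∀ x y, (G.deleteEdges {s(u, v)}).Reachable x y → (f x ↔ f y) := by
    rintro x y ⟨p⟩
    induction p with
    | nil => exact Iff.rfl
    | cons h p ih =>
      rw [SimpleGraph.deleteEdges_adj] at h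
      exact (hf _ _ h.1 (by simpa using h.2)).trans ih
  have hcl : ∀ w x, G.Walk w x → x = u → ((G.deleteEdges {s(u, v)}).Reachable w u ∨
      (G.deleteEdges {s(u, v)}).Reachable w v) := by
    intro w x p
    induction p with
    | nil => rintro rfl; exact Or.inl (SimpleGraph.Reachable.refl _)
    | @cons x y z h p ih =>
      intro hz
      by_cases he : s(x, y) = s(u, v)
      · rcases Sym2.eq_iff.mp he with ⟨h1, -⟩ | ⟨h1, -⟩
        · left; rw [h1]
        · right; rw [h1]
      · have hadj : (G.deleteEdges {s(u, v)}).Adj x y := by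
          rw [SimpleGraph.deleteEdges_adj]
          exact ⟨h, by simpa using he⟩
        rcases ih hz with h1 | h1
        · exact Or.inl (hadj.reachable.trans h1)
        · exact Or.inr (hadj.reachable.trans h1)
  constructor
  · exact hconst a b
  · intro hab
    obtain ⟨pa⟩ := hG.preconnected a u
    obtain ⟨pb⟩ := hG.preconnected b u
    have ha := hcl a u pa rfl
    have hb := hcl b u pb rfl
    rcases ha with ha | ha <;> rcases hb with hb | hb
    · exact ha.trans hb.symm
    · exact absurd ((hconst _ _ hb).mp (hab.mp ((hconst _ _ ha).mpr hu))) hv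
    · exact absurd ((hconst _ _ ha).mp (hab.mpr ((hconst _ _ hb).mpr hu))) hv
    · exact ha.trans hb.symm

theorem reach_of_forall {V : Type} {G : SimpleGraph V} (hG : G.IsTree) (D : Set (Sym2 V))
    (a b : V) : (G.deleteEdges D).Reachable a b ↔
      ∀ e ∈ D, (G.deleteEdges {e}).Reachable a b := by
  classical
  constructor
  · intro h e he
    exact h.mono (SimpleGraph.deleteEdges_anti (by simpa using he))
  · intro h
    obtain ⟨p, hp⟩ := (hG.connected.preconnected a b).exists_isPath
    have hav : ∀ e ∈ p.edges, e ∉ D := by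
      intro e hep heD
      obtain ⟨q, hq⟩ := (h e heD).exists_isPath
      have hle : G.deleteEdges {e} ≤ G := SimpleGraph.deleteEdges_le _
      have hq' : (q.mapLe hle).IsPath := (SimpleGraph.Walk.isPath_mapLe hle).mpr hq
      have heq : p = q.mapLe hle := by
        have := hG.isAcyclic.path_unique ⟨p, hp⟩ ⟨q.mapLe hle, hq'⟩
        exact congrArg Subtype.val this
      rw [heq] at hep
      rw [SimpleGraph.Walk.edges_mapLe_eq_edges] at hep
      have := q.edges_subset_edgeSet hep
      rw [SimpleGraph.edgeSet_deleteEdges] at this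
      exact this.2 rfl
    exact ⟨p.toDeleteEdges D hav⟩

theorem SBTree.rel_iff {n : ℕ} (T : SBTree n) (D : Set (Sym2 T.V)) (i j : Fin n) :
    T.rel D i j ↔ ∀ e ∈ D, (T.G.deleteEdges {e}).Reachable (T.leaf i) (T.leaf j) := by
  rw [← reach_of_forall T.tree]
  rfl

/-- The leaf edge separates its leaf from all others. -/
theorem SBTree.leaf_split {n : ℕ} (T : SBTree n) (k : Fin n) :
    ∃ e ∈ T.G.edgeSet, ∀ i j : Fin n,
      (T.G.deleteEdges {e}).Reachable (T.leaf i) (T.leaf j) ↔ (i = k ↔ j = k) := by
  have h1 : (T.G.neighborSet (T.leaf k)).ncard = 1 := (T.leaf_range _).mp ⟨k, rfl⟩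
  obtain ⟨w, hw⟩ := Set.ncard_eq_one.mp h1
  have hadj : T.G.Adj (T.leaf k) w := by
    have : w ∈ T.G.neighborSet (T.leaf k) := by rw [hw]; rfl
    exact this
  refine ⟨s(T.leaf k, w), hadj, fun i j => ?_⟩
  have := reach_iff T.tree.connected (u := T.leaf k) (v := w) (fun x => x = T.leaf k)
    (by
      intro a b hab hne
      constructor
      · intro ha
        exfalso; apply hne
        have : b ∈ T.G.neighborSet (T.leaf k) := by rw [← ha]; exact hab
        rw [hw] at this
        rw [ha, Set.mem_singleton_iff.mp this]
      · intro hb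
        exfalso; apply hne
        have : a ∈ T.G.neighborSet (T.leaf k) := by rw [← hb]; exact hab.symm
        rw [hw] at this
        rw [hb, Set.mem_singleton_iff.mp this, Sym2.eq_swap])
    rfl (fun h => hadj.ne h.symm) (T.leaf i) (T.leaf j)
  rw [this]
  simp [T.leaf_inj.eq_iff]

/-- `m` is the code of one side of a split of `T` displayed by an edge. -/
def SBTree.IsSplit (T : SBTree 7) (m : ℕ) : Prop :=
  ∃ e ∈ T.G.edgeSet, ∀ i j : Fin 7,
    (T.G.deleteEdges {e}).Reachable (T.leaf i) (T.leaf j) ↔
      (m.testBit i = true ↔ m.testBit j = true)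

/-- `c` codes the relation `r`. -/
def Rep (r : Setoid (Fin 7)) (c : ℕ) : Prop :=
  ∀ i j : Fin 7, r i j ↔ c.testBit (7 * i + j) = true

/-- the code `c` describes the partition with classes `A`, `B` and singletons -/
def Good (t : ℕ × ℕ × ℕ) : Prop :=
  ∀ i j : Fin 7, t.1.testBit (7 * i + j) =
    (decide (i = j) || (t.2.1.testBit i && t.2.1.testBit j) ||
      (t.2.2.testBit i && t.2.2.testBit j))

instance : DecidablePred Good := fun t => by unfold Good; infer_instance

theorem mem_base (T : SBTree 7) (t : ℕ × ℕ × ℕ) (ht : Good t) (hB : t.2.2 = 0) :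
    ∃ r ∈ T.convex, Rep r t.1 := by
  choose e he hs using T.leaf_split
  refine ⟨_, ⟨e '' {k | t.2.1.testBit k = false}, ?_, rfl⟩, ?_⟩
  · rintro _ ⟨k, -, rfl⟩; exact he k
  · intro i j
    rw [T.rel_iff, ht i j, hB]
    simp only [Set.forall_mem_image, Set.mem_ofPred_eq, hs, Nat.zero_testBit, Bool.and_false,
      Bool.or_false, Bool.or_eq_true, decide_eq_true_eq, Bool.and_eq_true]
    constructor
    · intro h
      by_cases hij : i = j
      · exact Or.inl hij
      · right
        constructor
        · by_contra hi
          have := (h (x := i) (by simpa using hi)).mp rfl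
          exact hij this.symm
        · by_contra hj
          have := (h (x := j) (by simpa using hj)).mpr rfl
          exact hij this
    · rintro (rfl | ⟨hi, hj⟩) k hk
      · exact Iff.rfl
      · constructor
        · rintro rfl; rw [hk] at hi; exact absurd hi (by simp)
        · rintro rfl; rw [hk] at hj; exact absurd hj (by simp)

/-- `A` and `B` lie on different sides of `m`. -/
def sepB (A B m : ℕ) : Bool :=
  (A &&& m == A && B &&& m == 0) || (B &&& m == B && A &&& m == 0)

theorem testBit_of_land_eq {A m i : ℕ} (h : A &&& m = A) (hi : A.testBit i = true) :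
    m.testBit i = true := by
  rw [← h, Nat.testBit_land] at hi
  simp at hi; exact hi.2

theorem testBit_of_land_zero {A m i : ℕ} (h : A &&& m = 0) (hi : A.testBit i = true) :
    m.testBit i = false := by
  have : (A &&& m).testBit i = false := by rw [h]; simp
  rw [Nat.testBit_land, hi] at this
  simpa using this

theorem mem_ex (T : SBTree 7) (t : ℕ × ℕ × ℕ) (ht : Good t) (m : ℕ) (hm : T.IsSplit m)
    (hsep : sepB t.2.1 t.2.2 m = true) :
    ∃ r ∈ T.convex, Rep r t.1 := by
  choose e he hs using T.leaf_split
  obtain ⟨e', he', hs'⟩ := hm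
  refine ⟨_, ⟨insert e' (e '' {k | t.2.1.testBit k = false ∧ t.2.2.testBit k = false}),
    ?_, rfl⟩, ?_⟩
  · rintro _ (rfl | ⟨k, -, rfl⟩)
    · exact he'
    · exact he k
  · intro i j
    rw [T.rel_iff, ht i j]
    simp only [Set.forall_mem_insert, Set.forall_mem_image, Set.mem_ofPred_eq, hs, hs',
      Bool.or_eq_true, decide_eq_true_eq, Bool.and_eq_true]
    have hAB : ∀ i : ℕ, t.2.1.testBit i = true → t.2.2.testBit i = true → False := by
      intro i h1 h2
      simp only [sepB, Bool.or_eq_true, Bool.and_eq_true, beq_iff_eq] at hsep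
      rcases hsep with ⟨h3, h4⟩ | ⟨h3, h4⟩
      · have a := testBit_of_land_eq h3 h1
        have b := testBit_of_land_zero h4 h2
        rw [a] at b; simp at b
      · have a := testBit_of_land_eq h3 h2
        have b := testBit_of_land_zero h4 h1
        rw [a] at b; simp at b
    have hside : (∀ i : ℕ, t.2.1.testBit i = true → m.testBit i = true) ∧
        (∀ i : ℕ, t.2.2.testBit i = true → m.testBit i = false) ∨
        (∀ i : ℕ, t.2.1.testBit i = true → m.testBit i = false) ∧
        (∀ i : ℕ, t.2.2.testBit i = true → m.testBit i = true) := by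
      simp only [sepB, Bool.or_eq_true, Bool.and_eq_true, beq_iff_eq] at hsep
      rcases hsep with ⟨h3, h4⟩ | ⟨h3, h4⟩
      · left
        exact ⟨fun i hi => testBit_of_land_eq h3 hi, fun i hi => testBit_of_land_zero h4 hi⟩
      · right
        exact ⟨fun i hi => testBit_of_land_zero h4 hi, fun i hi => testBit_of_land_eq h3 hi⟩
    constructor
    · rintro ⟨h0, h⟩
      by_cases hij : i = j
      · exact Or.inl (Or.inl hij)
      · have hi : t.2.1.testBit i = true ∨ t.2.2.testBit i = true := by
          by_contra hc
          push Not at hc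
          have := (h (x := i) ⟨by simpa using hc.1, by simpa using hc.2⟩).mp rfl
          exact hij this.symm
        have hj : t.2.1.testBit j = true ∨ t.2.2.testBit j = true := by
          by_contra hc
          push Not at hc
          have := (h (x := j) ⟨by simpa using hc.1, by simpa using hc.2⟩).mpr rfl
          exact hij this
        rcases hside with ⟨hA, hB⟩ | ⟨hA, hB⟩ <;> rcases hi with hi | hi <;>
          rcases hj with hj | hj
        · exact Or.inl (Or.inr ⟨hi, hj⟩)
        · have := h0.mp (hA _ hi); rw [hB _ hj] at this; simp at this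
        · have := h0.mpr (hA _ hj); rw [hB _ hi] at this; simp at this
        · exact Or.inr ⟨hi, hj⟩
        · exact Or.inl (Or.inr ⟨hi, hj⟩)
        · have := h0.mpr (hB _ hj); rw [hA _ hi] at this; simp at this
        · have := h0.mp (hB _ hi); rw [hA _ hj] at this; simp at this
        · exact Or.inr ⟨hi, hj⟩
    · rintro ((rfl | ⟨hi, hj⟩) | ⟨hi, hj⟩)
      · exact ⟨Iff.rfl, fun {k} _ => Iff.rfl⟩
      · refine ⟨?_, ?_⟩
        · rcases hside with ⟨hA, hB⟩ | ⟨hA, hB⟩
          · rw [hA _ hi, hA _ hj]
          · rw [hA _ hi, hA _ hj]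
        · rintro k ⟨hk, -⟩
          constructor
          · rintro rfl; rw [hk] at hi; simp at hi
          · rintro rfl; rw [hk] at hj; simp at hj
      · refine ⟨?_, ?_⟩
        · rcases hside with ⟨hA, hB⟩ | ⟨hA, hB⟩
          · rw [hB _ hi, hB _ hj]
          · rw [hB _ hi, hB _ hj]
        · rintro k ⟨-, hk⟩
          constructor
          · rintro rfl; rw [hk] at hi; simp at hi
          · rintro rfl; rw [hk] at hj; simp at hj

end MP6c0529
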