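import Pool.Agent.V1154.CT.Data

/-! The lower bound for pairs of caterpillars with seven leaves. -/

namespace MP6c0529

theorem atLeast_spec (f : ℕ × ℕ × ℕ → Bool) : ∀ (n : ℕ) (l : List (ℕ × ℕ × ℕ)),
    atLeast f n l = true → ∃ l' : List (ℕ × ℕ × ℕ), l'.Sublist l ∧ l'.length = n ∧ ∀ t ∈ l', f t = true := by
  intro n l
  induction l generalizing n with
  | nil =>
    intro h
    cases n with
    | zero => exact ⟨[], List.Sublist.slnil, rfl, by simp⟩
    | succ n => simp [atLeast] at h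
  | cons t l ih =>
    intro h
    cases n with
    | zero => exact ⟨[], List.nil_sublist _, rfl, by simp⟩
    | succ n =>
      rw [atLeast] at h
      split_ifs at h with ht
      · obtain ⟨l', h1, h2, h3⟩ := ih n h
        refine ⟨t :: l', h1.cons_cons t, by simp [h2], ?_⟩
        intro x hx
        rcases List.mem_cons.mp hx with rfl | hx
        · exact ht
        · exact h3 x hx
      · obtain ⟨l', h1, h2, h3⟩ := ih (n + 1) h
        exact ⟨l', h1.cons t, h2, h3⟩

theorem Rep.ext {r r' : Setoid (Fin 7)} {c : ℕ} (h : Rep r c) (h' : Rep r' c) : r = r' := by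
  ext i j
  exact (h i j).trans (h' i j).symm

theorem Rep.code_eq {r : Setoid (Fin 7)} {c c' : ℕ} (h : Rep r c) (h' : Rep r c')
    (hc : c < 2 ^ 49) (hc' : c' < 2 ^ 49) : c = c' := by
  apply Nat.eq_of_testBit_eq
  intro k
  by_cases hk : k < 49
  · have h1 := h ⟨k / 7, by omega⟩ ⟨k % 7, by omega⟩
    have h2 := h' ⟨k / 7, by omega⟩ ⟨k % 7, by omega⟩
    simp only at h1 h2
    have e : 7 * (k / 7) + k % 7 = k := by omega
    rw [e] at h1 h2
    rw [Bool.eq_iff_iff]
    exact h1.symm.trans h2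
  · have h49 : 2 ^ 49 ≤ 2 ^ k := Nat.pow_le_pow_right (by norm_num) (by omega)
    rw [Nat.testBit_lt_two_pow (lt_of_lt_of_le hc h49),
      Nat.testBit_lt_two_pow (lt_of_lt_of_le hc' h49)]

instance : Finite (Setoid (Fin 7)) :=
  Finite.of_injective (fun r : Setoid (Fin 7) => (fun i j => r i j : Fin 7 → Fin 7 → Prop))
    (by
      intro r r' h
      ext i j
      exact iff_of_eq (congrFun (congrFun h i) j))

theorem chk_true {u v x y z : Fin 7} : chk u v x y z = true := by
  have h := chkAll_true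
  simp only [chkAll, List.all_eq_true, List.mem_range] at h
  exact h u.val u.isLt v.val v.isLt x.val x.isLt y.val y.isLt z.val z.isLt

theorem lower_masks (T F : SBTree 7) (m2 m3 m4 m5 : ℕ)
    (hT : T.IsSplit 3 ∧ T.IsSplit 7 ∧ T.IsSplit 15 ∧ T.IsSplit 31)
    (hF : F.IsSplit m2 ∧ F.IsSplit m3 ∧ F.IsSplit m4 ∧ F.IsSplit m5)
    (h5 : atLeast (sepC m2 m3 m4 m5) 5 exL = true) :
    126 ≤ (T.convex ∩ F.convex).ncard := by
  classical
  obtain ⟨l', hsub, hlen, hl'⟩ := atLeast_spec _ _ _ h5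
  have hmem : ∀ (X : SBTree 7) (a b c d : ℕ),
      (X.IsSplit a ∧ X.IsSplit b ∧ X.IsSplit c ∧ X.IsSplit d) →
      ∀ t, Good t → sepC a b c d t = true → ∃ r ∈ X.convex, Rep r t.1 := by
    rintro X a b c d ⟨ha, hb, hc, hd⟩ t ht hs
    simp only [sepC, Bool.or_eq_true] at hs
    rcases hs with ((hs | hs) | hs) | hs
    · exact mem_ex X t ht a ha hs
    · exact mem_ex X t ht b hb hs
    · exact mem_ex X t ht c hc hs
    · exact mem_ex X t ht d hd hs
  have hgood : ∀ t ∈ baseL ++ exL, Good t := by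
    intro t ht
    have := good_all
    rw [List.all_eq_true] at this
    exact good_of_goodB (this t ht)
  have hlt : ∀ t ∈ baseL ++ exL, t.1 < 2 ^ 49 := by
    intro t ht
    have := codes_lt
    rw [List.all_eq_true] at this
    exact Nat.blt_eq.mp (this t ht)
  have hstd : ∀ t ∈ exL, sepC 3 7 15 31 t = true := by
    have := ex_std
    rw [List.all_eq_true] at this
    exact this
  have hbz : ∀ t ∈ baseL, t.2.2 = 0 := by
    intro t ht
    have := base_zero
    rw [List.all_eq_true] at this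
    exact beq_iff_eq.mp (this t ht)
  have hex : ∀ t ∈ baseL ++ l', ∃ r, (r ∈ T.convex ∩ F.convex) ∧ Rep r t.1 := by
    intro t ht
    rcases List.mem_append.mp ht with h | h
    · have hg := hgood t (List.mem_append.mpr (Or.inl h))
      obtain ⟨r, hr, h1⟩ := mem_base T t hg (hbz t h)
      obtain ⟨r', hr', h1'⟩ := mem_base F t hg (hbz t h)
      have := h1.ext h1'
      subst this
      exact ⟨r, ⟨hr, hr'⟩, h1⟩
    · have hm : t ∈ exL := hsub.subset h
      have hg := hgood t (List.mem_append.mpr (Or.inr hm))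
      obtain ⟨r, hr, h1⟩ := hmem T 3 7 15 31 hT t hg (hstd t hm)
      obtain ⟨r', hr', h1'⟩ := hmem F m2 m3 m4 m5 hF t hg (hl' t h)
      have := h1.ext h1'
      subst this
      exact ⟨r, ⟨hr, hr'⟩, h1⟩
  set K : List ℕ := (baseL ++ l').map fun t => t.1 with hK
  have hKsub : K.Sublist ((baseL ++ exL).map fun t => t.1) :=
    List.Sublist.map _ (List.Sublist.append_left hsub baseL)
  have hKn : K.Nodup := codes_nodup.sublist hKsub
  have hKl : K.length = 126 := by
    rw [hK, List.length_map, List.length_append, base_length, hlen]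
  have hKex : ∀ c ∈ K, ∃ r, (r ∈ T.convex ∩ F.convex) ∧ Rep r c := by
    intro c hc
    obtain ⟨t, ht, rfl⟩ := List.mem_map.mp hc
    exact hex t ht
  have hKlt : ∀ c ∈ K, c < 2 ^ 49 := by
    intro c hc
    obtain ⟨t, ht, rfl⟩ := List.mem_map.mp (hKsub.subset hc)
    exact hlt t ht
  let g : ℕ → Setoid (Fin 7) := fun c =>
    if h : ∃ r, (r ∈ T.convex ∩ F.convex) ∧ Rep r c then h.choose else ⊥
  have hg : ∀ c ∈ K, g c ∈ T.convex ∩ F.convex ∧ Rep (g c) c := by
    intro c hc
    have h := hKex c hc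
    have : g c = h.choose := dif_pos h
    rw [this]
    exact h.choose_spec
  have hcard : ((K.toFinset : Finset ℕ) : Set ℕ).ncard = 126 := by
    rw [Set.ncard_coe_finset, List.toFinset_card_of_nodup hKn, hKl]
  rw [← hcard]
  refine Set.ncard_le_ncard_of_injOn g ?_ ?_ (Set.toFinite _)
  · intro c hc
    have : c ∈ K := by simpa using hc
    exact (hg c this).1
  · intro c hc c' hc' hcc
    have h1 : c ∈ K := by simpa using hc
    have h2 : c' ∈ K := by simpa using hc'
    have r1 := (hg c h1).2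
    have r2 := (hg c' h2).2
    rw [hcc] at r1
    exact r1.code_eq r2 (hKlt c h1) (hKlt c' h2)

/-- the set `P` of labels is one side of a split of `T` displayed by an edge -/
def SBTree.IsSplitP (T : SBTree 7) (P : Fin 7 → Prop) : Prop :=
  ∃ e ∈ T.G.edgeSet, ∀ i j : Fin 7,
    (T.G.deleteEdges {e}).Reachable (T.leaf i) (T.leaf j) ↔ (P i ↔ P j)

theorem SBTree.IsSplitP.toMask {T : SBTree 7} {P : Fin 7 → Prop} (h : T.IsSplitP P) {m : ℕ}
    (hm : ∀ i : Fin 7, m.testBit i = true ↔ P i) : T.IsSplit m := by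
  obtain ⟨e, he, h⟩ := h
  exact ⟨e, he, fun i j => by rw [h, hm, hm]⟩

/-- `T` displays the splits of a caterpillar whose leaves come in the order `σ 0, …, σ 6`. -/
def SBTree.HasChain (T : SBTree 7) (σ : Equiv.Perm (Fin 7)) : Prop :=
  ∀ k : ℕ, 2 ≤ k → k ≤ 5 → T.IsSplitP (fun i => (σ.symm i).val < k)

/-- relabelling the leaves -/
def SBTree.relabel {n : ℕ} (T : SBTree n) (ρ : Equiv.Perm (Fin n)) : SBTree n where
  V := T.V
  fin := T.fin
  G := T.G
  tree := T.tree
  deg := T.deg
  leaf := T.leaf ∘ ρ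
  leaf_inj := T.leaf_inj.comp ρ.injective
  leaf_range := by
    intro v
    rw [← T.leaf_range]
    constructor
    · rintro ⟨i, hi⟩; exact ⟨ρ i, hi⟩
    · rintro ⟨i, hi⟩; exact ⟨ρ.symm i, by simpa using hi⟩

theorem SBTree.relabel_convex {n : ℕ} (T : SBTree n) (ρ : Equiv.Perm (Fin n)) :
    (T.relabel ρ).convex = (fun r : Setoid (Fin n) => r.comap ρ) '' T.convex := by
  ext r
  constructor
  · rintro ⟨D, hD, rfl⟩
    exact ⟨T.rel D, ⟨D, hD, rfl⟩, rfl⟩
  · rintro ⟨_, ⟨D, hD, rfl⟩, rfl⟩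
    exact ⟨D, hD, rfl⟩

theorem comap_injective {n : ℕ} (ρ : Equiv.Perm (Fin n)) :
    Function.Injective (fun r : Setoid (Fin n) => r.comap ρ) := by
  intro r r' h
  ext i j
  have := congrArg (fun q : Setoid (Fin n) => q (ρ.symm i) (ρ.symm j)) h
  simpa [Setoid.comap_rel] using this

theorem relabel_ncard {n : ℕ} (T F : SBTree n) (ρ : Equiv.Perm (Fin n)) :
    ((T.relabel ρ).convex ∩ (F.relabel ρ).convex).ncard = (T.convex ∩ F.convex).ncard := by
  rw [T.relabel_convex, F.relabel_convex, ← Set.image_inter (comap_injective ρ),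
    Set.ncard_image_of_injective _ (comap_injective ρ)]

theorem SBTree.IsSplitP.relabel {T : SBTree 7} {P : Fin 7 → Prop} (h : T.IsSplitP P)
    (ρ : Equiv.Perm (Fin 7)) : (T.relabel ρ).IsSplitP (fun i => P (ρ i)) := by
  obtain ⟨e, he, h⟩ := h
  exact ⟨e, he, fun i j => h (ρ i) (ρ j)⟩

theorem lower_chain (T F : SBTree 7) (σ τ : Equiv.Perm (Fin 7)) (hT : T.HasChain σ)
    (hF : F.HasChain τ) : 126 ≤ (T.convex ∩ F.convex).ncard := by
  rw [← relabel_ncard T F σ]
  have hT' : ∀ k : ℕ, 2 ≤ k → k ≤ 5 → (T.relabel σ).IsSplit (2 ^ k - 1) := by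
    intro k h1 h2
    refine ((hT k h1 h2).relabel σ).toMask ?_
    intro i
    simp [Nat.testBit_two_pow_sub_one]
  set ρ : Equiv.Perm (Fin 7) := τ.trans σ.symm with hρ
  have hF' : ∀ k : ℕ, 2 ≤ k → k ≤ 5 →
      (F.relabel σ).IsSplitP (fun i => (ρ.symm i).val < k) := by
    intro k h1 h2
    exact (hF k h1 h2).relabel σ
  have hc := chk_true (u := ρ 0) (v := ρ 1) (x := ρ 2) (y := ρ 3) (z := ρ 4)
  have hne : ∀ a b : Fin 7, a ≠ b → ((ρ a).val == (ρ b).val) = false := by
    intro a b hab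
    rw [beq_eq_false_iff_ne]
    intro h
    exact hab (ρ.injective (Fin.ext h))
  rw [chk, hne 0 1 (by decide), hne 0 2 (by decide), hne 0 3 (by decide), hne 0 4 (by decide),
    hne 1 2 (by decide), hne 1 3 (by decide), hne 1 4 (by decide), hne 2 3 (by decide),
    hne 2 4 (by decide), hne 3 4 (by decide)] at hc
  simp only [Bool.or_false, Bool.false_or] at hc
  refine lower_masks _ _ _ _ _ _
    ⟨hT' 2 (by norm_num) (by norm_num), hT' 3 (by norm_num) (by norm_num),
      hT' 4 (by norm_num) (by norm_num), hT' 5 (by norm_num) (by norm_num)⟩ ?_ hc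
  have hkey : ∀ i a : Fin 7, (ρ a).val = i.val ↔ ρ.symm i = a := by
    intro i a
    rw [Equiv.symm_apply_eq]
    constructor
    · intro h; exact (Fin.ext h).symm
    · rintro rfl; rfl
  refine ⟨(hF' 2 (by norm_num) (by norm_num)).toMask ?_,
    (hF' 3 (by norm_num) (by norm_num)).toMask ?_,
    (hF' 4 (by norm_num) (by norm_num)).toMask ?_,
    (hF' 5 (by norm_num) (by norm_num)).toMask ?_⟩ <;>
  · intro i
    simp only [Nat.testBit_or, Nat.testBit_two_pow, Bool.or_eq_true, decide_eq_true_eq, hkey]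
    generalize ρ.symm i = w
    revert w
    decide

end MP6c0529
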