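import Pool.Agent.V1154.CT.Low

/-! The two explicit trees. -/

namespace MP6c0529

/-- graph on `Fin 12` given by the masks of the neighbourhoods -/
def adjB (nb : List ℕ) (a b : Fin 12) : Bool := (nb.getD a.val 0).testBit b.val

def mkG (nb : List ℕ) (h1 : ∀ a b : Fin 12, adjB nb a b = true → adjB nb b a = true)
    (h2 : ∀ a : Fin 12, adjB nb a a = false) : SimpleGraph (Fin 12) where
  Adj a b := adjB nb a b = true
  symm := ⟨fun a b h => h1 a b h⟩
  loopless := ⟨fun a h => by rw [h2 a] at h; exact Bool.false_ne_true h⟩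

instance (nb : List ℕ) (h1) (h2) : DecidableRel (mkG nb h1 h2).Adj :=
  fun a b => inferInstanceAs (Decidable (adjB nb a b = true))

theorem mkG_connected (nb : List ℕ) (h1) (h2)
    (hp : ∀ v : Fin 12, v ≠ 11 → ∃ w : Fin 12, v < w ∧ adjB nb v w = true) :
    (mkG nb h1 h2).Connected := by
  have h : ∀ n : ℕ, ∀ v : Fin 12, 11 - v.val ≤ n → (mkG nb h1 h2).Reachable v 11 := by
    intro n
    induction n with
    | zero =>
      intro v hv
      have : v = 11 := by apply Fin.ext; show v.val = 11; omega
      rw [this]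
    | succ n ih =>
      intro v hv
      by_cases hv' : v = 11
      · rw [hv']
      · obtain ⟨w, hw, ha⟩ := hp v hv'
        have hadj : (mkG nb h1 h2).Adj v w := ha
        have hw' : v.val < w.val := hw
        exact hadj.reachable.trans (ih w (by omega))
  haveI : Nonempty (Fin 12) := ⟨0⟩
  exact ⟨fun a b => (h 12 a (by omega)).trans (h 12 b (by omega)).symm⟩

theorem mkG_tree (nb : List ℕ) (h1) (h2)
    (hp : ∀ v : Fin 12, v ≠ 11 → ∃ w : Fin 12, v < w ∧ adjB nb v w = true)
    (hs : ∑ v : Fin 12, (Finset.univ.filter fun w => adjB nb v w = true).card = 22) :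
    (mkG nb h1 h2).IsTree := by
  rw [SimpleGraph.isTree_iff_connected_and_card]
  refine ⟨mkG_connected nb h1 h2 hp, ?_⟩
  have h := (mkG nb h1 h2).sum_degrees_eq_twice_card_edges
  have h' : ∑ v : Fin 12, (mkG nb h1 h2).degree v = 22 := by
    rw [← hs]
    apply Finset.sum_congr rfl
    intro v _
    rw [← SimpleGraph.card_neighborFinset_eq_degree]
    congr 1
    ext w
    simp [mkG]
  rw [h'] at h
  rw [Nat.card_eq_fintype_card, ← SimpleGraph.edgeFinset_card, Nat.card_eq_fintype_card,
    Fintype.card_fin]
  omega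

/-- the tree with seven leaves on `Fin 12` -/
def mkT (nb : List ℕ) (h1 : ∀ a b : Fin 12, adjB nb a b = true → adjB nb b a = true)
    (h2 : ∀ a : Fin 12, adjB nb a a = false)
    (hp : ∀ v : Fin 12, v ≠ 11 → ∃ w : Fin 12, v < w ∧ adjB nb v w = true)
    (hs : ∑ v : Fin 12, (Finset.univ.filter fun w => adjB nb v w = true).card = 22)
    (hd : ∀ v : Fin 12, (Finset.univ.filter fun w => adjB nb v w = true).card =
      if v.val < 7 then 1 else 3) : SBTree 7 where
  V := Fin 12
  fin := inferInstance
  G := mkG nb h1 h2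
  tree := mkG_tree nb h1 h2 hp hs
  deg := by
    intro v
    have : (mkG nb h1 h2).neighborSet v =
        ((Finset.univ.filter fun w => adjB nb v w = true : Finset (Fin 12)) : Set (Fin 12)) := by
      ext w; simp [mkG]
    rw [this, Set.ncard_coe_finset, hd v]
    split_ifs <;> simp
  leaf := Fin.castLE (by norm_num)
  leaf_inj := Fin.castLE_injective _
  leaf_range := by
    intro v
    have : (mkG nb h1 h2).neighborSet v =
        ((Finset.univ.filter fun w => adjB nb v w = true : Finset (Fin 12)) : Set (Fin 12)) := by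
      ext w; simp [mkG]
    rw [this, Set.ncard_coe_finset, hd v]
    constructor
    · rintro ⟨i, rfl⟩
      have : (Fin.castLE (by norm_num : 7 ≤ 12) i).val < 7 := i.isLt
      rw [if_pos this]
    · intro h
      by_cases hv : v.val < 7
      · exact ⟨⟨v.val, hv⟩, rfl⟩
      · rw [if_neg hv] at h; norm_num at h

/-- the check of the table of the edges -/
def chkTab (nb : List ℕ) (tab : List (ℕ × ℕ × ℕ × ℕ)) : Bool :=
  ((List.range 12).all fun a => (List.range 12).all fun b =>
    !((nb.getD a 0).testBit b) ||
      tab.any fun t => (t.1 == a && t.2.1 == b) || (t.1 == b && t.2.1 == a)) &&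
  (tab.all fun t => t.2.2.1.testBit t.1 && !(t.2.2.1.testBit t.2.1) &&
    ((List.range 12).all fun a => (List.range 12).all fun b =>
      !((nb.getD a 0).testBit b) || ((t.1 == a && t.2.1 == b) || (t.1 == b && t.2.1 == a)) ||
        (t.2.2.1.testBit a == t.2.2.1.testBit b)) &&
    ((List.range 7).all fun i => (List.range 7).all fun j =>
      t.2.2.2.testBit (7 * i + j) == (t.2.2.1.testBit i == t.2.2.1.testBit j)))

/-- membership test -/
def memB (a : ℕ) : List ℕ → Bool
  | [] => false
  | b :: l => Nat.beq a b || memB a l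

theorem mem_of_memB {a : ℕ} : ∀ {l : List ℕ}, memB a l = true → a ∈ l
  | [], h => by simp [memB] at h
  | b :: l, h => by
    rw [memB, Bool.or_eq_true] at h
    rcases h with h | h
    · rw [Nat.eq_of_beq_eq_true h]; exact List.mem_cons_self
    · exact List.mem_cons_of_mem _ (mem_of_memB h)

/-- the check that a list of codes is closed -/
def chkP (tab : List (ℕ × ℕ × ℕ × ℕ)) (P : List ℕ) : Bool :=
  P.contains (2 ^ 49 - 1) && (P.all fun c => Nat.blt c (2 ^ 49)) &&
  (P.all fun c => tab.all fun t => Nat.beq (c &&& t.2.2.2) c || memB (c &&& t.2.2.2) P)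

theorem upper_codes (nb : List ℕ) (h1) (h2) (hp) (hs) (hd) (tab : List (ℕ × ℕ × ℕ × ℕ))
    (P : List ℕ) (ht : chkTab nb tab = true) (hP : chkP tab P = true) :
    ∀ r ∈ (mkT nb h1 h2 hp hs hd).convex, ∃ c ∈ P, Rep r c := by
  classical
  intro r hr
  set T := mkT nb h1 h2 hp hs hd with hT
  obtain ⟨D, hD, rfl⟩ := hr
  simp only [chkTab, Bool.and_eq_true, List.all_eq_true, List.mem_range, Bool.or_eq_true,
    List.any_eq_true, beq_iff_eq, Bool.not_eq_true'] at ht
  obtain ⟨ht1, ht2⟩ := ht
  simp only [chkP, Bool.and_eq_true, List.all_eq_true, List.contains_eq_mem,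
    decide_eq_true_eq, Bool.or_eq_true] at hP
  obtain ⟨⟨hP1, -⟩, hP3'⟩ := hP
  have hP3 : ∀ c ∈ P, ∀ t ∈ tab, c &&& t.2.2.2 ∈ P := by
    intro c hc t ht
    rcases hP3' c hc t ht with h | h
    · rw [Nat.eq_of_beq_eq_true h]; exact hc
    · exact mem_of_memB h
  have hedge : ∀ e ∈ T.G.edgeSet, ∃ t ∈ tab, ∀ i j : Fin 7,
      (T.G.deleteEdges {e}).Reachable (T.leaf i) (T.leaf j) ↔
        t.2.2.2.testBit (7 * i + j) = true := by
    intro e he
    induction e using Sym2.ind with
    | _ a b =>
      have hab : adjB nb a b = true := he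
      rcases ht1 a.val a.isLt b.val b.isLt with h | ⟨t, htm, h⟩
      · rw [adjB, h] at hab; exact absurd hab (by simp)
      · refine ⟨t, htm, ?_⟩
        have h3 := ht2 t htm
        obtain ⟨⟨⟨h4, h5⟩, h6⟩, h7⟩ := h3
        have hcode : ∀ i j : Fin 7, t.2.2.2.testBit (7 * i + j) = true ↔
            (t.2.2.1.testBit i = true ↔ t.2.2.1.testBit j = true) := by
          intro i j
          rw [h7 i.val i.isLt j.val j.isLt]
          cases t.2.2.1.testBit i <;> cases t.2.2.1.testBit j <;> simp
        have main : ∀ u v : Fin 12, u.val = t.1 → v.val = t.2.1 → ∀ i j : Fin 7,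
            (T.G.deleteEdges {s(u, v)}).Reachable (T.leaf i) (T.leaf j) ↔
              t.2.2.2.testBit (7 * i + j) = true := by
          intro u v hu hv i j
          rw [hcode i j]
          have := reach_iff T.tree.connected (u := u) (v := v)
            (fun x : Fin 12 => t.2.2.1.testBit x.val = true) ?_ ?_ ?_ (T.leaf i) (T.leaf j)
          · exact this
          · intro x y hxy hne
            have hxy' : adjB nb x y = true := hxy
            rcases h6 x.val x.isLt y.val y.isLt with (h | h) | h
            · rw [adjB, h] at hxy'; exact absurd hxy' (by simp)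
            · exfalso
              apply hne
              rcases h with ⟨e1, e2⟩ | ⟨e1, e2⟩
              · have e3 : x = u := Fin.ext (by rw [hu, e1])
                have e4 : y = v := Fin.ext (by rw [hv, e2])
                rw [e3, e4]
              · have e3 : y = u := Fin.ext (by rw [hu, e1])
                have e4 : x = v := Fin.ext (by rw [hv, e2])
                rw [e3, e4, Sym2.eq_swap]
            · rw [h]
          · rw [hu]; exact h4
          · rw [hv, h5]; simp
        rcases h with ⟨e1, e2⟩ | ⟨e1, e2⟩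
        · exact main a b e1.symm e2.symm
        · rw [Sym2.eq_swap]
          exact main b a e1.symm e2.symm
  have hfin : ∀ E : Finset (Sym2 T.V), (E : Set (Sym2 T.V)) ⊆ T.G.edgeSet →
      ∃ c ∈ P, ∀ i j : Fin 7,
        (∀ e ∈ E, (T.G.deleteEdges {e}).Reachable (T.leaf i) (T.leaf j)) ↔
          c.testBit (7 * i + j) = true := by
    intro E
    induction E using Finset.induction_on with
    | empty =>
      intro _
      refine ⟨_, hP1, ?_⟩
      intro i j
      simp only [Finset.notMem_empty, false_imp_iff, implies_true, true_iff,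
        Nat.testBit_two_pow_sub_one, decide_eq_true_eq]
      omega
    | insert e E _ ih =>
      intro hE
      rw [Finset.coe_insert, Set.insert_subset_iff] at hE
      obtain ⟨c, hc, hcr⟩ := ih hE.2
      obtain ⟨t, htm, htr⟩ := hedge e hE.1
      refine ⟨c &&& t.2.2.2, hP3 c hc t htm, ?_⟩
      intro i j
      rw [Nat.testBit_land, Bool.and_eq_true, ← hcr i j, ← htr i j]
      simp only [Finset.mem_insert, forall_eq_or_imp]
      exact and_comm
  have : Finite T.V := T.fin
  have hDf : D.Finite := Set.toFinite D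
  obtain ⟨c, hc, hcr⟩ := hfin hDf.toFinset (by simpa using hD)
  refine ⟨c, hc, ?_⟩
  intro i j
  rw [T.rel_iff, ← hcr i j]
  simp

theorem upper (nb nb' : List ℕ) (h1) (h2) (hp) (hs) (hd) (h1') (h2') (hp') (hs') (hd')
    (tab tab' : List (ℕ × ℕ × ℕ × ℕ)) (P P' : List ℕ) (ht : chkTab nb tab = true)
    (hP : chkP tab P = true) (ht' : chkTab nb' tab' = true) (hP' : chkP tab' P' = true)
    (hI : (P.filter fun c => P'.contains c).length ≤ 125) :
    ((mkT nb h1 h2 hp hs hd).convex ∩ (mkT nb' h1' h2' hp' hs' hd').convex).ncard ≤ 125 := by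
  classical
  set T := mkT nb h1 h2 hp hs hd
  set F := mkT nb' h1' h2' hp' hs' hd'
  have hu := upper_codes nb h1 h2 hp hs hd tab P ht hP
  have hu' := upper_codes nb' h1' h2' hp' hs' hd' tab' P' ht' hP'
  have lt : ∀ c ∈ P, c < 2 ^ 49 := by
    intro c hc
    simp only [chkP, Bool.and_eq_true, List.all_eq_true] at hP
    exact Nat.blt_eq.mp (hP.1.2 c hc)
  have lt' : ∀ c ∈ P', c < 2 ^ 49 := by
    intro c hc
    simp only [chkP, Bool.and_eq_true, List.all_eq_true] at hP'
    exact Nat.blt_eq.mp (hP'.1.2 c hc)
  have hboth : ∀ r ∈ T.convex ∩ F.convex,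
      ∃ c ∈ (P.filter fun c => P'.contains c).toFinset, Rep r c := by
    rintro r ⟨hr, hr'⟩
    obtain ⟨c, hc, h⟩ := hu r hr
    obtain ⟨c', hc', h'⟩ := hu' r hr'
    have := h.code_eq h' (lt c hc) (lt' c' hc')
    subst this
    refine ⟨c, ?_, h⟩
    simp only [List.mem_toFinset, List.mem_filter, List.contains_eq_mem, decide_eq_true_eq]
    exact ⟨hc, hc'⟩
  choose! g hg using hboth
  calc (T.convex ∩ F.convex).ncard
      ≤ (((P.filter fun c => P'.contains c).toFinset : Finset ℕ) : Set ℕ).ncard := by
        refine Set.ncard_le_ncard_of_injOn g ?_ ?_ (Finset.finite_toSet _)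
        · intro r hr
          exact (hg r hr).1
        · intro r hr r' hr' he
          have a := (hg r hr).2
          have b := (hg r' hr').2
          rw [he] at a
          exact a.ext b
    _ ≤ 125 := by
        rw [Set.ncard_coe_finset]
        exact (List.toFinset_card_le _).trans hI

theorem symT : ∀ a b : Fin 12, adjB nbT a b = true → adjB nbT b a = true := by decide +kernel
theorem irrT : ∀ a : Fin 12, adjB nbT a a = false := by decide +kernel
theorem parT : ∀ v : Fin 12, v ≠ 11 → ∃ w : Fin 12, v < w ∧ adjB nbT v w = true := by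
  decide +kernel
theorem sumT : ∑ v : Fin 12, (Finset.univ.filter fun w => adjB nbT v w = true).card = 22 := by
  decide +kernel
theorem degT : ∀ v : Fin 12, (Finset.univ.filter fun w => adjB nbT v w = true).card =
    if v.val < 7 then 1 else 3 := by decide +kernel
theorem symF : ∀ a b : Fin 12, adjB nbF a b = true → adjB nbF b a = true := by decide +kernel
theorem irrF : ∀ a : Fin 12, adjB nbF a a = false := by decide +kernel
theorem parF : ∀ v : Fin 12, v ≠ 11 → ∃ w : Fin 12, v < w ∧ adjB nbF v w = true := by
  decide +kernel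
theorem sumF : ∑ v : Fin 12, (Finset.univ.filter fun w => adjB nbF v w = true).card = 22 := by
  decide +kernel
theorem degF : ∀ v : Fin 12, (Finset.univ.filter fun w => adjB nbF v w = true).card =
    if v.val < 7 then 1 else 3 := by decide +kernel

theorem tabT_ok : chkTab nbT tabT = true := by decide +kernel
theorem tabF_ok : chkTab nbF tabF = true := by decide +kernel
theorem pT_ok : chkP tabT pT = true := by decide +kernel
theorem pF_ok : chkP tabF pF = true := by decide +kernel
theorem inter_ok : (pT.filter fun c => pF.contains c).length ≤ 125 := by decide +kernel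

/-- the caterpillar -/
def T0 : SBTree 7 := mkT nbT symT irrT parT sumT degT

/-- the tree which is not a caterpillar -/
def F0 : SBTree 7 := mkT nbF symF irrF parF sumF degF

theorem upper_bound : (T0.convex ∩ F0.convex).ncard ≤ 125 :=
  upper _ _ _ _ _ _ _ _ _ _ _ _ tabT tabF pT pF tabT_ok pT_ok tabF_ok pF_ok inter_ok

end MP6c0529
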